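import Mathlib

/-!
Reading a sequence of natural numbers from a real number: the gaps between the consecutive ones
of its binary expansion. Every cylinder can be extended so that the next value is prescribed.
-/

set_option autoImplicit false

namespace TH724.Luz

open Set Classical

section nth

variable (p q : ℕ → Prop)

theorem count_agree {M : ℕ} (h : ∀ k < M, (p k ↔ q k)) : ∀ m ≤ M, Nat.count p m = Nat.count q m := by
  intro m
  induction m with
  | zero => intro _; simp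
  | succ m ih =>
    intro hm
    rw [Nat.count_succ, Nat.count_succ, ih (by omega)]
    by_cases hp : p m
    · rw [if_pos hp, if_pos ((h m (by omega)).1 hp)]
    · rw [if_neg hp, if_neg (fun hq => hp ((h m (by omega)).2 hq))]

theorem exists_of_lt_count {n j : ℕ} (h : j < Nat.count p n) :
    ∃ m < n, p m ∧ Nat.count p m = j := by
  induction n with
  | zero => simp at h
  | succ n ih =>
    rw [Nat.count_succ] at h
    by_cases h1 : j < Nat.count p n
    · obtain ⟨m, hm, h2⟩ := ih h1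
      exact ⟨m, by omega, h2⟩
    · by_cases hp : p n
      · rw [if_pos hp] at h
        exact ⟨n, by omega, hp, by omega⟩
      · rw [if_neg hp] at h
        omega

theorem nth_agree {M j : ℕ} (h : ∀ k < M, (p k ↔ q k)) (hj : j < Nat.count p M) :
    Nat.nth p j = Nat.nth q j := by
  obtain ⟨m, hm, hpm, rfl⟩ := exists_of_lt_count p hj
  rw [Nat.nth_count hpm, count_agree p q h m hm.le, Nat.nth_count ((h m hm).1 hpm)]

theorem count_zeros {M v : ℕ} (h : ∀ k, M ≤ k → k < M + v → ¬ p k) :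
    Nat.count p (M + v) = Nat.count p M := by
  induction v with
  | zero => rfl
  | succ v ih =>
    rw [← Nat.add_assoc, Nat.count_succ, if_neg (h (M + v) (by omega) (by omega)), Nat.add_zero]
    exact ih (fun k h1 h2 => h k h1 (by omega))

end nth

/-- the digit number `k` of `t` is a one -/
def dig (t : ℝ) (k : ℕ) : Prop := ⌊(2 : ℝ) ^ (k + 1) * t⌋ % 2 = 1

/-- position of the `j`-th one -/
noncomputable def pos (t : ℝ) (j : ℕ) : ℕ := Nat.nth (dig t) j

/-- the number of zeros between the ones number `j` and `j + 1` -/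
noncomputable def run (t : ℝ) (j : ℕ) : ℕ := pos t (j + 1) - pos t j - 1

/-- dyadic intervals -/
def cyl (M : ℕ) (b : ℤ) : Set ℝ := {t | (b : ℝ) < 2 ^ M * t ∧ 2 ^ M * t < b + 1}

theorem cyl_nonempty (M : ℕ) (b : ℤ) : (cyl M b).Nonempty := by
  refine ⟨(b + 1 / 2) / 2 ^ M, ?_⟩
  have h : (2 : ℝ) ^ M * ((b + 1 / 2) / 2 ^ M) = b + 1 / 2 := by
    field_simp
  constructor <;> rw [h] <;> linarith

theorem cyl_open (M : ℕ) (b : ℤ) : IsOpen (cyl M b) := by
  apply IsOpen.inter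
  · exact isOpen_lt continuous_const (continuous_const.mul continuous_id)
  · exact isOpen_lt (continuous_const.mul continuous_id) continuous_const

theorem floor_cyl {M : ℕ} {b : ℤ} {t : ℝ} (ht : t ∈ cyl M b) (e k : ℕ) (h : k + e = M) :
    ⌊(2 : ℝ) ^ k * t⌋ = b / 2 ^ e := by
  have h1 : ⌊(2 : ℝ) ^ M * t⌋ = b := by
    rw [Int.floor_eq_iff]
    exact ⟨ht.1.le, ht.2⟩
  have h2 : (2 : ℝ) ^ k * t = (2 ^ M * t) / ((2 ^ e : ℕ) : ℝ) := by
    rw [← h, pow_add]
    push_cast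
    field_simp
  rw [h2, Int.floor_div_natCast, h1]
  push_cast
  rfl

theorem dig_cyl {M : ℕ} {b : ℤ} {t : ℝ} (ht : t ∈ cyl M b) (e k : ℕ) (h : k + 1 + e = M) :
    dig t k ↔ (b / 2 ^ e) % 2 = 1 := by
  rw [dig, floor_cyl ht e (k + 1) h]

theorem dig_agree {M : ℕ} {b : ℤ} {t t' : ℝ} (ht : t ∈ cyl M b) (ht' : t' ∈ cyl M b) :
    ∀ k < M, (dig t k ↔ dig t' k) := by
  intro k hk
  rw [dig_cyl ht (M - k - 1) k (by omega), dig_cyl ht' (M - k - 1) k (by omega)]

/-- the next cylinder: `v` zeros and a one -/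
def nxt (b : ℤ) (v : ℕ) : ℤ := b * 2 ^ (v + 1) + 1

theorem cyl_nxt (M : ℕ) (b : ℤ) (v : ℕ) : cyl (M + v + 1) (nxt b v) ⊆ cyl M b := by
  intro t ht
  obtain ⟨h1, h2⟩ := ht
  have e : (2 : ℝ) ^ (M + v + 1) * t = 2 ^ (v + 1) * (2 ^ M * t) := by ring
  have hp : (2 : ℝ) ≤ 2 ^ (v + 1) := by
    calc (2 : ℝ) = 2 ^ 1 := by norm_num
      _ ≤ 2 ^ (v + 1) := pow_le_pow_right₀ (by norm_num) (by omega)
  rw [e, nxt] at h1 h2
  push_cast at h1 h2
  constructor
  · by_contra hcon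
    push Not at hcon
    nlinarith [mul_le_mul_of_nonneg_left hcon (by positivity : (0 : ℝ) ≤ 2 ^ (v + 1))]
  · by_contra hcon
    push Not at hcon
    nlinarith [mul_le_mul_of_nonneg_left hcon (by positivity : (0 : ℝ) ≤ 2 ^ (v + 1))]

theorem dig_nxt_one {M : ℕ} {b : ℤ} {v : ℕ} {t : ℝ} (ht : t ∈ cyl (M + v + 1) (nxt b v)) :
    dig t (M + v) := by
  rw [dig_cyl ht 0 (M + v) (by omega), nxt]
  have h : b * 2 ^ (v + 1) = (b * 2 ^ v) * 2 := by ring
  rw [h, pow_zero, Int.ediv_one]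
  generalize b * 2 ^ v = c
  omega

theorem dig_nxt_zero {M : ℕ} {b : ℤ} {v : ℕ} {t : ℝ} (ht : t ∈ cyl (M + v + 1) (nxt b v)) (k : ℕ)
    (h1 : M ≤ k) (h2 : k < M + v) : ¬ dig t k := by
  obtain ⟨e, he⟩ : ∃ e, k + 1 + (e + 1) = M + v + 1 := ⟨M + v - k - 1, by omega⟩
  rw [dig_cyl ht (e + 1) k he, nxt]
  obtain ⟨f, hf⟩ : ∃ f, v + 1 = (f + 1) + (e + 1) := ⟨v - e - 1, by omega⟩
  have h3 : (b * 2 ^ (v + 1) + 1 : ℤ) / 2 ^ (e + 1) = b * 2 ^ (f + 1) := by
    rw [hf, pow_add (2 : ℤ) (f + 1) (e + 1), ← mul_assoc, add_comm,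
      Int.add_mul_ediv_right _ _ (by positivity)]
    have : (1 : ℤ) / 2 ^ (e + 1) = 0 := by
      apply Int.ediv_eq_zero_of_lt (by norm_num)
      calc (1 : ℤ) < 2 ^ 1 := by norm_num
        _ ≤ 2 ^ (e + 1) := pow_le_pow_right₀ (by norm_num) (by omega)
    rw [this, zero_add]
  have h4 : b * 2 ^ (f + 1) = (b * 2 ^ f) * 2 := by ring
  rw [h3, h4]
  generalize b * 2 ^ f = c
  omega

/-- `cyl M b` is a node: its points have the same values `s j` for `j < J`, and the value number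
`J` is free -/
def Node (M : ℕ) (b : ℤ) (J : ℕ) (s : ℕ → ℕ) : Prop :=
  1 ≤ M ∧ ∀ t ∈ cyl M b, (∀ j < J, run t j = s j) ∧ pos t J = M - 1 ∧ Nat.count (dig t) M = J + 1

theorem node_start (M : ℕ) (b : ℤ) (hM : 1 ≤ M) (hb : b % 2 = 1) : ∃ J s, Node M b J s := by
  obtain ⟨t0, ht0⟩ := cyl_nonempty M b
  have hd : ∀ t ∈ cyl M b, dig t (M - 1) := by
    intro t ht
    rw [dig_cyl ht 0 (M - 1) (by omega)]
    simpa using hb
  have hc : ∀ t ∈ cyl M b, Nat.count (dig t) M = Nat.count (dig t) (M - 1) + 1 := by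
    intro t ht
    obtain ⟨m, rfl⟩ : ∃ m, M = m + 1 := ⟨M - 1, by omega⟩
    have h1 := hd t ht
    rw [Nat.add_sub_cancel] at h1 ⊢
    rw [Nat.count_succ, if_pos h1]
  refine ⟨Nat.count (dig t0) (M - 1), run t0, hM, fun t ht => ?_⟩
  have hag := dig_agree ht0 ht
  have hca := count_agree _ _ hag
  have hnth : ∀ j ≤ Nat.count (dig t0) (M - 1), pos t0 j = pos t j := by
    intro j hj
    apply nth_agree _ _ hag
    rw [hc t0 ht0]
    omega
  refine ⟨fun j hj => ?_, ?_, ?_⟩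
  · rw [run, run, hnth (j + 1) (by omega), hnth j (by omega)]
  · rw [← hnth _ le_rfl, pos, Nat.nth_count (hd t0 ht0)]
  · rw [hc t ht, hca (M - 1) (by omega)]

theorem node_ext {M : ℕ} {b : ℤ} {J : ℕ} {s : ℕ → ℕ} (h : Node M b J s) (v : ℕ) :
    Node (M + v + 1) (nxt b v) (J + 1) (Function.update s J v) := by
  refine ⟨by omega, fun t ht => ?_⟩
  obtain ⟨h1, h2, h3⟩ := h.2 t (cyl_nxt M b v ht)
  have hc : Nat.count (dig t) (M + v) = J + 1 := by
    rw [count_zeros (dig t) (fun k hk1 hk2 => dig_nxt_zero ht k hk1 hk2), h3]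
  have hp : pos t (J + 1) = M + v := by
    rw [pos, ← hc, Nat.nth_count (dig_nxt_one ht)]
  refine ⟨fun j hj => ?_, ?_, ?_⟩
  · by_cases hjJ : j = J
    · subst hjJ
      rw [Function.update_self, run, hp, h2]
      have := h.1
      omega
    · rw [Function.update_of_ne hjJ]
      exact h1 j (by omega)
  · rw [hp]
    omega
  · rw [Nat.count_succ, hc, if_pos (dig_nxt_one ht)]

/-- iterated extension with a strategy -/
theorem node_iter (P : (ℕ → ℕ) → ℕ → Prop)
    (hloc : ∀ y y' : ℕ → ℕ, ∀ j, (∀ k ≤ j, y k = y' k) → (P y j → P y' j))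
    (hext : ∀ y : ℕ → ℕ, ∀ j, ∃ v, P (Function.update y j v) j)
    {M : ℕ} {b : ℤ} {J : ℕ} {s : ℕ → ℕ} (h : Node M b J s) (N : ℕ) :
    ∃ M' b' s', Node M' b' (J + N) s' ∧ cyl M' b' ⊆ cyl M b ∧
      ∀ j, J ≤ j → j < J + N → P s' j := by
  induction N with
  | zero => exact ⟨M, b, s, h, Subset.rfl, fun j h1 h2 => by omega⟩
  | succ N ih =>
    obtain ⟨M', b', s', h1, h2, h3⟩ := ih
    obtain ⟨v, hv⟩ := hext s' (J + N)
    refine ⟨_, _, _, node_ext h1 v, (cyl_nxt M' b' v).trans h2, fun j hj1 hj2 => ?_⟩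
    by_cases hj : j = J + N
    · rw [hj]
      exact hv
    · refine hloc s' _ j (fun k hk => ?_) (h3 j hj1 (by omega))
      rw [Function.update_of_ne (by omega)]

/-- triangular numbers -/
def tri : ℕ → ℕ
  | 0 => 0
  | i + 1 => tri i + (i + 1)

theorem le_tri (i : ℕ) : i ≤ tri i := by
  induction i with
  | zero => exact le_rfl
  | succ i ih => rw [tri]; omega

theorem tri_mono {i j : ℕ} (h : i ≤ j) : tri i ≤ tri j := by
  induction j with
  | zero => rw [Nat.le_zero.1 h]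
  | succ j ih =>
    rcases Nat.lt_or_ge i (j + 1) with h1 | h1
    · exact (ih (by omega)).trans (by rw [tri]; omega)
    · rw [show i = j + 1 by omega]

/-- Reading `y = run (x 0)` from a point `x` of `ℝ ^ (m + 1)`: every nonempty open set contains a
nonempty open set on which whole blocks of `y` are as we like. -/
theorem open_block {m : ℕ} (P : ℕ → (ℕ → ℕ) → ℕ → Prop)
    (hloc : ∀ i, ∀ y y' : ℕ → ℕ, ∀ j, (∀ k ≤ j, y k = y' k) → (P i y j → P i y' j))
    (hext : ∀ i, ∀ y : ℕ → ℕ, ∀ j, ∃ v, P i (Function.update y j v) j)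
    (U : Set (Fin (m + 1) → ℝ)) (hU : IsOpen U) (hne : U.Nonempty) (i0 : ℕ) :
    ∃ i ≥ i0, ∃ U' ⊆ U, IsOpen U' ∧ U'.Nonempty ∧
      ∀ x ∈ U', ∀ j, tri i ≤ j → j < tri (i + 1) → P i (run (x 0)) j := by
  obtain ⟨p, hp⟩ := hne
  obtain ⟨ε, hε, hball⟩ := Metric.isOpen_iff.1 hU p hp
  obtain ⟨M, hM⟩ := exists_pow_lt_of_lt_one hε (by norm_num : (1 / 2 : ℝ) < 1)
  set b0 : ℤ := ⌊(2 : ℝ) ^ M * p 0⌋ with hb0
  have hsub : ∀ t ∈ cyl (M + 1) (2 * b0 + 1), |t - p 0| < ε := by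
    intro t ht
    have h1 := ht.1
    have h2 := ht.2
    have h3 := Int.floor_le ((2 : ℝ) ^ M * p 0)
    have h4 := Int.lt_floor_add_one ((2 : ℝ) ^ M * p 0)
    rw [← hb0] at h3 h4
    have e : (2 : ℝ) ^ (M + 1) * t = 2 * (2 ^ M * t) := by ring
    rw [e] at h1 h2
    push_cast at h1 h2
    have h5 : |2 ^ M * (t - p 0)| < 1 := by
      rw [mul_sub, abs_lt]
      constructor <;> linarith
    have hp2 : (0 : ℝ) < 2 ^ M := by positivity
    rw [abs_mul, abs_of_pos hp2] at h5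
    have h6 : |t - p 0| < (1 / 2) ^ M := by
      rw [one_div, inv_pow, ← one_div, lt_div_iff₀ hp2, mul_comm]
      exact h5
    linarith
  obtain ⟨J, s, hnode⟩ := node_start (M + 1) (2 * b0 + 1) (by omega) (by omega)
  obtain ⟨M1, b1, s1, hn1, hs1, -⟩ := node_iter (fun _ _ => True) (fun _ _ _ _ h => h)
    (fun _ _ => ⟨0, trivial⟩) hnode (tri (max i0 J) - J)
  have hJ : J ≤ tri (max i0 J) := (le_max_right i0 J).trans (le_tri _)
  have e1 : J + (tri (max i0 J) - J) = tri (max i0 J) := by omega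
  rw [e1] at hn1
  obtain ⟨M2, b2, s2, hn2, hs2, hP⟩ := node_iter (P (max i0 J)) (hloc _) (hext _) hn1
    (max i0 J + 1)
  have e2 : tri (max i0 J) + (max i0 J + 1) = tri (max i0 J + 1) := rfl
  rw [e2] at hn2 hP
  refine ⟨max i0 J, le_max_left _ _, U ∩ (fun x => x 0) ⁻¹' (cyl M2 b2), inter_subset_left,
    hU.inter ((cyl_open M2 b2).preimage (continuous_apply 0)), ?_, ?_⟩
  · obtain ⟨t, ht⟩ := cyl_nonempty M2 b2
    refine ⟨Function.update p 0 t, hball ?_, ?_⟩
    · rw [Metric.mem_ball, dist_pi_lt_iff hε]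
      intro j
      by_cases hj : j = 0
      · rw [hj, Function.update_self, Real.dist_eq]
        exact hsub t (hs1 (hs2 ht))
      · rw [Function.update_of_ne hj, dist_self]
        exact hε
    · rw [mem_preimage, Function.update_self]
      exact ht
  · rintro x ⟨-, hx⟩ j hj1 hj2
    refine hloc _ s2 _ j (fun k hk => ?_) (hP j hj1 hj2)
    exact ((hn2.2 (x 0) hx).1 k (by omega)).symm

end TH724.Luz
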