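import Pool.Agent.TH724.Luz.Side

/-!
The key lemma: one point `x` of `ℝ ^ (m + 1)` outside of a meagre set `A'` gives, for every small set
`W`, a point `z` with `z + w ∉ A` for all `w ∈ W`. The set `A'` depends on `A` only.
-/

set_option autoImplicit false

namespace TH724.Luz

open Set Classical Metric Filter Cardinal

/-- Every family of fewer than `κ` functions bounded by `b` is localized by a slalom. -/
def Loc (κ : Cardinal.{0}) : Prop :=
  ∀ (b : ℕ → ℕ) (H : Set (ℕ → ℕ)), #H < κ → (∀ h ∈ H, ∀ i, h i ≤ b i) →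
    ∃ S : ℕ → Finset ℕ, (∀ i, (S i).card ≤ i + 1) ∧ ∀ h ∈ H, ∀ᶠ i in atTop, h i ∈ S i

theorem loc_aleph_one : Loc (Cardinal.aleph 1) := by
  intro b H hH _
  have hc : H.Countable := by
    rw [← le_aleph0_iff_set_countable, ← Order.lt_succ_iff, Cardinal.succ_aleph0]
    exact hH
  rcases H.eq_empty_or_nonempty with rfl | hne
  · exact ⟨fun _ => ∅, fun i => by simp, by simp⟩
  · obtain ⟨f, hf⟩ := hc.exists_eq_range hne
    refine ⟨fun i => (Finset.range (i + 1)).image (fun k => f k i), fun i => ?_, ?_⟩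
    · exact Finset.card_image_le.trans_eq (Finset.card_range _)
    · intro h hh
      rw [hf] at hh
      obtain ⟨k, rfl⟩ := hh
      filter_upwards [eventually_ge_atTop k] with i hi
      exact Finset.mem_image.2 ⟨k, Finset.mem_range.2 (by omega), rfl⟩

/-- the row of `j` -/
noncomputable def row (j : ℕ) : ℕ :=
  Nat.find (⟨j, lt_of_lt_of_le (Nat.lt_succ_self j) (le_tri (j + 1))⟩ : ∃ i, j < tri (i + 1))

theorem row_eq {i j : ℕ} (h1 : tri i ≤ j) (h2 : j < tri (i + 1)) : row j = i := by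
  unfold row
  rw [Nat.find_eq_iff]
  refine ⟨h2, fun n hn => ?_⟩
  have := tri_mono (i := n + 1) (j := i) (by omega)
  omega

section

variable {X : Type} [NormedAddCommGroup X] [ProperSpace X]

theorem key {κ : Cardinal.{0}} (hκ : Loc κ) (y : ℕ → ℕ) (W : Set X) (hW : #W < κ) :
    ∃ z : X, ∀ F : ℕ → Set X, Monotone F →
      (∀ i0, ∃ i ≥ i0, ∀ j, tri i ≤ j → j < tri (i + 1) → good (F i) y j) →
      ∀ w ∈ W, ∀ i, z + w ∉ F i := by
  set δ : ℕ → ℝ := fun i => rho y (tri (i + 1)) with hδ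
  have hδ0 : ∀ i, 0 < δ i := fun i => rho_pos y _
  set code : ℕ → X → ℕ := fun i w => Nat.find (exists_pt w (δ i) (hδ0 i)) with hcode
  have hcode1 : ∀ i w, dist (pt X (code i w)) w < δ i := fun i w =>
    Nat.find_spec (exists_pt w (δ i) (hδ0 i))
  have hbd : ∀ i : ℕ, ∃ B : ℕ, ∀ w ∈ closedBall (0 : X) (i : ℝ), code i w ≤ B := by
    intro i
    obtain ⟨t, -, ht⟩ := (isCompact_closedBall (0 : X) (i : ℝ)).elim_nhds_subcover
      (fun p => ball (pt X (code i p)) (δ i)) (fun p _ => by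
        apply isOpen_ball.mem_nhds
        rw [mem_ball, dist_comm]
        exact hcode1 i p)
    refine ⟨t.sup (code i), fun w hw => ?_⟩
    have h1 := ht hw
    rw [mem_iUnion₂] at h1
    obtain ⟨p, hp, hwp⟩ := h1
    refine le_trans ?_ (Finset.le_sup (f := code i) hp)
    apply Nat.find_min'
    rw [dist_comm]
    exact hwp
  choose B hB using hbd
  set cd : X → ℕ → ℕ := fun w i => if w ∈ closedBall (0 : X) (i : ℝ) then code i w else 0 with hcd
  obtain ⟨S, hS1, hS2⟩ := hκ B (cd '' W) (lt_of_le_of_lt mk_image_le hW) (by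
    rintro h ⟨w, -, rfl⟩ i
    simp only [hcd]
    split_ifs with h1
    · exact hB i w h1
    · exact Nat.zero_le _)
  set q : ℕ → X := fun j => pt X ((S (row j)).toList.getD (j - tri (row j)) 0) with hq
  obtain ⟨z, hz⟩ := exists_limit y q
  refine ⟨z, fun F hF hgood w hw i0 hmem => ?_⟩
  have h1 := hS2 (cd w) ⟨w, hw, rfl⟩
  rw [eventually_atTop] at h1
  obtain ⟨i1, hi1⟩ := h1
  obtain ⟨N, hN⟩ := exists_nat_ge (‖z‖ + ‖w‖ + 2)
  obtain ⟨i, hi, hg⟩ := hgood (max i0 (max i1 N))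
  have hii0 : i0 ≤ i := le_trans (le_max_left _ _) hi
  have hii1 : i1 ≤ i := le_trans (le_trans (le_max_left _ _) (le_max_right _ _)) hi
  have hiN : N ≤ i := le_trans (le_trans (le_max_right _ _) (le_max_right _ _)) hi
  have hiN' : (N : ℝ) ≤ i := by exact_mod_cast hiN
  have hwi : w ∈ closedBall (0 : X) (i : ℝ) := by
    rw [mem_closedBall, dist_zero_right]
    linarith [norm_nonneg z]
  have h2 := hi1 i hii1
  simp only [hcd, if_pos hwi] at h2
  obtain ⟨l, hl, hl2⟩ := List.getElem_of_mem (Finset.mem_toList.2 h2)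
  have hli : l ≤ i := by
    rw [Finset.length_toList] at hl
    have := hS1 i
    omega
  have hj1 : tri i ≤ tri i + l := Nat.le_add_right _ _
  have hj2 : tri i + l < tri (i + 1) := by rw [tri]; omega
  have hqj : q (tri i + l) = pt X (code i w) := by
    simp only [hq]
    rw [row_eq hj1 hj2, Nat.add_sub_cancel_left, List.getD_eq_getElem _ _ hl, hl2]
  have hdist : dist w (q (tri i + l)) ≤ rr (y (tri i + l)) / 2 := by
    rw [hqj, dist_comm]
    have h3 := hcode1 i w
    have h4 : δ i ≤ rho y (tri i + l + 1) := rho_anti y (by omega)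
    have h5 := rho_le_rr y (tri i + l)
    linarith
  have hrr : rr (y (tri i + l)) / 2 ≤ 1 := by
    have : rr (y (tri i + l)) ≤ 1 := by
      unfold rr
      rw [div_le_one (by positivity)]
      linarith [Nat.cast_nonneg (α := ℝ) (dec (y (tri i + l))).2]
    linarith
  refine avoid (F i) y q z w hz (tri i + l) (hg _ hj1 hj2) hdist ?_ hrr (hF hii0 hmem)
  have h6 : (i : ℝ) ≤ ((tri i + l : ℕ) : ℝ) := by
    have := le_tri i
    exact_mod_cast (by omega : i ≤ tri i + l)
  linarith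

end

/-- closed nowhere dense approximations of a meagre set -/
theorem meagre_cover {X : Type} [TopologicalSpace X] (A : Set X) (hA : IsMeagre A) :
    ∃ F : ℕ → Set X, Monotone F ∧ (∀ i, IsClosed (F i)) ∧ (∀ i, IsNowhereDense (F i)) ∧
      A ⊆ ⋃ i, F i := by
  rw [isMeagre_iff_countable_union_isNowhereDense] at hA
  obtain ⟨S, hS1, hS2, hS3⟩ := hA
  obtain ⟨s, hs⟩ : ∃ s : ℕ → Set X, (∀ i, IsNowhereDense (s i)) ∧ A ⊆ ⋃ i, s i := by
    rcases S.eq_empty_or_nonempty with rfl | hne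
    · refine ⟨fun _ => ∅, fun _ => isNowhereDense_empty, ?_⟩
      simpa using hS3
    · obtain ⟨f, hf⟩ := hS2.exists_eq_range hne
      refine ⟨f, fun i => hS1 _ (hf ▸ ⟨i, rfl⟩), ?_⟩
      rw [hf, sUnion_range] at hS3
      exact hS3
  have hcl : ∀ i, IsClosed (⋃ k ∈ Finset.range i, closure (s k)) := fun i =>
    isClosed_biUnion_finset (fun k _ => isClosed_closure)
  refine ⟨fun i => ⋃ k ∈ Finset.range i, closure (s k), ?_, hcl, ?_, ?_⟩
  · intro i j hij x hx
    simp only [mem_iUnion, Finset.mem_range] at hx ⊢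
    obtain ⟨k, hk, hx⟩ := hx
    exact ⟨k, by omega, hx⟩
  · intro i
    rw [(hcl i).isNowhereDense_iff]
    induction i with
    | zero => simp
    | succ i ih =>
      rw [Finset.range_add_one, Finset.set_biUnion_insert,
        interior_union_isClosed_of_interior_empty isClosed_closure ih]
      exact hs.1 i
  · intro x hx
    obtain ⟨k, hk⟩ := mem_iUnion.1 (hs.2 hx)
    refine mem_iUnion.2 ⟨k + 1, ?_⟩
    simp only [mem_iUnion, Finset.mem_range]
    exact ⟨k, by omega, subset_closure hk⟩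

/-- The meagre set `A'`, which depends on `A` only. -/
theorem star {m : ℕ} (A : Set (Fin (m + 1) → ℝ)) (hA : IsMeagre A) :
    ∃ A' : Set (Fin (m + 1) → ℝ), IsMeagre A' ∧ ∀ x ∉ A', ∃ F : ℕ → Set (Fin (m + 1) → ℝ),
      Monotone F ∧ A ⊆ (⋃ i, F i) ∧
      ∀ i0, ∃ i ≥ i0, ∀ j, tri i ≤ j → j < tri (i + 1) → good (F i) (run (x 0)) j := by
  obtain ⟨F, hF1, hF2, hF3, hF4⟩ := meagre_cover A hA
  set E : ℕ → Set (Fin (m + 1) → ℝ) := fun i0 => {x | ∀ i ≥ i0, ¬ ∀ j, tri i ≤ j →
    j < tri (i + 1) → good (F i) (run (x 0)) j} with hE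
  refine ⟨⋃ i0, E i0, isMeagre_iUnion (fun i0 => IsNowhereDense.isMeagre ?_), fun x hx => ?_⟩
  · rw [IsNowhereDense]
    by_contra hne
    rw [← Ne, ← nonempty_iff_ne_empty] at hne
    obtain ⟨i, hi, U', hU'1, hU'2, hU'3, hU'4⟩ := open_block (fun i => good (F i))
      (fun i y y' j h => good_loc (F i) y y' j h) (fun i y j => good_ext (F i) (hF2 i) (hF3 i) y j)
      (interior (closure (E i0))) isOpen_interior hne i0
    obtain ⟨u, hu⟩ := hU'3
    have h1 : u ∈ closure (E i0) := interior_subset (hU'1 hu)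
    obtain ⟨v, hv1, hv2⟩ := mem_closure_iff.1 h1 U' hU'2 hu
    exact hv2 i hi (hU'4 v hv1)
  · refine ⟨F, hF1, hF4, fun i0 => ?_⟩
    have h1 : x ∉ E i0 := fun h => hx (mem_iUnion.2 ⟨i0, h⟩)
    by_contra hcon
    push Not at hcon
    refine h1 (fun i hi h2 => ?_)
    obtain ⟨j, hj1, hj2, hj3⟩ := hcon i hi
    exact hj3 (h2 j hj1 hj2)

end TH724.Luz
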