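import Pool.Agent.TH724.Luz.Key

/-!
From a `κ`-Luzin set for the meagre ideal to a `ℚ`-linear subspace which is a `κ`-Luzin set.
-/

set_option autoImplicit false

namespace TH724.Luz

open Set Classical Metric Filter Cardinal

theorem mk_span_lt {X : Type} [AddCommGroup X] [Module ℚ X] {κ : Cardinal.{0}} (hκ : ℵ₀ < κ)
    (s : Set X) (hs : #s < κ) : #(Submodule.span ℚ s : Set X) < κ := by
  rcases s.eq_empty_or_nonempty with rfl | hne
  · rw [Submodule.span_empty]
    refine lt_of_le_of_lt ?_ hκ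
    simp
  · have : Nonempty s := hne.to_subtype
    have h1 : (Submodule.span ℚ s : Set X) =
        range (Finsupp.linearCombination ℚ ((↑) : s → X)) := by
      rw [← LinearMap.coe_range, Finsupp.range_linearCombination, Subtype.range_coe]
    rw [h1]
    refine lt_of_le_of_lt mk_range_le ?_
    rw [mk_finsupp_of_infinite', Cardinal.mkRat]
    exact max_lt hs hκ

section

variable {m : ℕ}

/-- one step of the construction -/
noncomputable def step (κ : Cardinal.{0}) (hloc : Loc κ) (x : Fin (m + 1) → ℝ)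
    (W : Set (Fin (m + 1) → ℝ)) : Fin (m + 1) → ℝ :=
  if hW : #W < κ then (key hloc (run (x 0)) W hW).choose else 0

theorem step_spec (κ : Cardinal.{0}) (hloc : Loc κ) (x : Fin (m + 1) → ℝ)
    (W : Set (Fin (m + 1) → ℝ)) (hW : #W < κ) (A A' : Set (Fin (m + 1) → ℝ))
    (hA' : ∀ x ∉ A', ∃ F : ℕ → Set (Fin (m + 1) → ℝ),
      Monotone F ∧ A ⊆ (⋃ i, F i) ∧
      ∀ i0, ∃ i ≥ i0, ∀ j, tri i ≤ j → j < tri (i + 1) → good (F i) (run (x 0)) j)
    (hx : x ∉ A') : ∀ w ∈ W, step κ hloc x W + w ∉ A := by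
  intro w hw hmem
  obtain ⟨F, hF1, hF2, hF3⟩ := hA' x hx
  have h1 := (key hloc (run (x 0)) W hW).choose_spec F hF1 hF3 w hw
  rw [step, dif_pos hW] at hmem
  obtain ⟨i, hi⟩ := mem_iUnion.1 (hF2 hmem)
  exact h1 i hi

/-- the transfinite sequence -/
noncomputable def zz (κ : Cardinal.{0}) (hloc : Loc κ) (x : κ.ord.ToType → (Fin (m + 1) → ℝ)) :
    κ.ord.ToType → (Fin (m + 1) → ℝ) :=
  WellFounded.fix (wellFounded_lt (α := κ.ord.ToType)) (fun β rec =>
    step κ hloc (x β) (Submodule.span ℚ {u | ∃ γ, ∃ h : γ < β, rec γ h = u} :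
      Set (Fin (m + 1) → ℝ)))

theorem zz_eq (κ : Cardinal.{0}) (hloc : Loc κ) (x : κ.ord.ToType → (Fin (m + 1) → ℝ))
    (β : κ.ord.ToType) :
    zz κ hloc x β = step κ hloc (x β)
      (Submodule.span ℚ (zz κ hloc x '' Iio β) : Set (Fin (m + 1) → ℝ)) := by
  have h : {u | ∃ γ, ∃ _ : γ < β, zz κ hloc x γ = u} = zz κ hloc x '' Iio β := by
    ext u
    constructor
    · rintro ⟨γ, hγ, rfl⟩
      exact ⟨γ, hγ, rfl⟩
    · rintro ⟨γ, hγ, rfl⟩
      exact ⟨γ, hγ, rfl⟩
  rw [← h, zz, WellFounded.fix_eq]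

theorem meagre_singleton (p : Fin (m + 1) → ℝ) : IsMeagre ({p} : Set (Fin (m + 1) → ℝ)) := by
  apply IsNowhereDense.isMeagre
  rw [IsNowhereDense, closure_singleton]
  have : (nhdsWithin p {p}ᶜ).NeBot := Module.punctured_nhds_neBot ℝ _ p
  exact interior_singleton p

theorem meagre_smul (A : Set (Fin (m + 1) → ℝ)) (hA : IsMeagre A) (c : ℚ) (hc : c ≠ 0) :
    IsMeagre ((fun v : Fin (m + 1) → ℝ => c • v) ⁻¹' A) :=
  hA.preimage_of_isOpenMap (Homeomorph.smulOfNeZero c hc).continuous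
    (Homeomorph.smulOfNeZero c hc).isOpenMap

theorem decomp {I X : Type} [LinearOrder I] [AddCommGroup X] [Module ℚ X] (z : I → X) (g : X)
    (hg : g ∈ Submodule.span ℚ (range z)) (hg0 : g ≠ 0) :
    ∃ β : I, ∃ c : ℚ, c ≠ 0 ∧ ∃ h ∈ Submodule.span ℚ (z '' Iio β), g = c • z β + h := by
  rw [← image_univ, Finsupp.mem_span_image_iff_linearCombination] at hg
  obtain ⟨l, -, rfl⟩ := hg
  have hl : l.support.Nonempty := by
    rw [Finsupp.support_nonempty_iff]
    rintro rfl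
    simp at hg0
  refine ⟨l.support.max' hl, l (l.support.max' hl), ?_,
    Finsupp.linearCombination ℚ z (l.erase (l.support.max' hl)), ?_, ?_⟩
  · exact Finsupp.mem_support_iff.1 (Finset.max'_mem _ hl)
  · rw [Finsupp.mem_span_image_iff_linearCombination]
    refine ⟨_, ?_, rfl⟩
    rw [Finsupp.mem_supported]
    intro γ hγ
    rw [Finset.mem_coe, Finsupp.support_erase, Finset.mem_erase] at hγ
    exact lt_of_le_of_ne (Finset.le_max' _ _ hγ.2) hγ.1
  · conv_lhs => rw [← Finsupp.single_add_erase (l.support.max' hl) l]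
    rw [map_add, Finsupp.linearCombination_single]

theorem main {κ : Cardinal.{0}} (hreg : κ.IsRegular) (hκ : ℵ₀ < κ) (hloc : Loc κ)
    (L : Set (Fin (m + 1) → ℝ)) (hL1 : κ ≤ #L)
    (hL2 : ∀ A : Set (Fin (m + 1) → ℝ), IsMeagre A → #(L ∩ A : Set _) < κ) :
    ∃ V : Submodule ℚ (Fin (m + 1) → ℝ), κ ≤ #(V : Set (Fin (m + 1) → ℝ)) ∧
      ∀ A : Set (Fin (m + 1) → ℝ), IsMeagre A →
        #((V : Set (Fin (m + 1) → ℝ)) ∩ A : Set _) < κ := by
  have hI : #κ.ord.ToType = κ := mk_ord_toType κ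
  rw [← hI, Cardinal.le_def] at hL1
  obtain ⟨e⟩ := hL1
  set x : κ.ord.ToType → (Fin (m + 1) → ℝ) := fun β => (e β : Fin (m + 1) → ℝ) with hx
  have hxinj : Function.Injective x := fun a b hab => e.injective (Subtype.ext hab)
  have hxL : ∀ β, x β ∈ L := fun β => (e β).2
  set z := zz κ hloc x with hz
  have hIio : ∀ β : κ.ord.ToType, #(Iio β) < κ := fun β => mk_Iio_toType_ord_lt β
  have hW : ∀ β : κ.ord.ToType, #(Submodule.span ℚ (z '' Iio β) : Set (Fin (m + 1) → ℝ)) < κ :=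
    fun β => mk_span_lt hκ _ (lt_of_le_of_lt mk_image_le (hIio β))
  -- the sets `A'` for all the sets `c⁻¹ A`
  have hstar : ∀ A : Set (Fin (m + 1) → ℝ), IsMeagre A → ∃ A' : Set (Fin (m + 1) → ℝ),
      IsMeagre A' ∧ ∀ β, x β ∉ A' → ∀ c : ℚ, c ≠ 0 → ∀ h ∈ Submodule.span ℚ (z '' Iio β),
        c • z β + h ∉ A := by
    intro A hA
    have h1 : ∀ c : ℚ, ∃ A' : Set (Fin (m + 1) → ℝ), IsMeagre A' ∧ (c ≠ 0 → ∀ x ∉ A',
        ∃ F : ℕ → Set (Fin (m + 1) → ℝ),
          Monotone F ∧ ((fun v : Fin (m + 1) → ℝ => c • v) ⁻¹' A) ⊆ (⋃ i, F i) ∧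
          ∀ i0, ∃ i ≥ i0, ∀ j, tri i ≤ j → j < tri (i + 1) → good (F i) (run (x 0)) j) := by
      intro c
      by_cases hc : c = 0
      · exact ⟨∅, IsMeagre.empty, fun h => absurd hc h⟩
      · obtain ⟨A', h1, h2⟩ := star _ (meagre_smul A hA c hc)
        exact ⟨A', h1, fun _ => h2⟩
    choose A' hA'1 hA'2 using h1
    refine ⟨⋃ c, A' c, isMeagre_iUnion hA'1, fun β hβ c hc h hh hmem => ?_⟩
    have h2 : x β ∉ A' c := fun h => hβ (mem_iUnion.2 ⟨c, h⟩)
    have h3 := step_spec κ hloc (x β) _ (hW β) _ (A' c) (hA'2 c hc) h2 (c⁻¹ • h)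
      (Submodule.smul_mem _ _ hh)
    rw [← zz_eq] at h3
    apply h3
    rw [mem_preimage, smul_add, smul_smul, mul_inv_cancel₀ hc, one_smul]
    exact hmem
  have hbad : ∀ A' : Set (Fin (m + 1) → ℝ), IsMeagre A' → #{β | x β ∈ A'} < κ := by
    intro A' hA'
    refine lt_of_le_of_lt ?_ (hL2 A' hA')
    refine Cardinal.mk_le_of_injective (f := fun β => (⟨x β.1, hxL β.1, β.2⟩ : (L ∩ A' : Set _))) ?_
    intro a b hab
    have := congrArg (fun t : (L ∩ A' : Set _) => (t : Fin (m + 1) → ℝ)) hab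
    exact Subtype.ext (hxinj this)
  refine ⟨Submodule.span ℚ (range z), ?_, ?_⟩
  · obtain ⟨A', hA'1, hA'2⟩ := hstar {0} (meagre_singleton 0)
    have h1 := hbad A' hA'1
    have : Infinite κ.ord.ToType := by
      rw [Cardinal.infinite_iff, hI]
      exact hκ.le
    have h2 : #({β | x β ∈ A'}ᶜ : Set κ.ord.ToType) = κ := by
      rw [mk_compl_of_infinite _ (by rw [hI]; exact h1), hI]
    refine h2.symm.le.trans ?_
    refine Cardinal.mk_le_of_injective
      (f := fun β => (⟨z β.1, Submodule.subset_span ⟨β.1, rfl⟩⟩ :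
        (Submodule.span ℚ (range z) : Set (Fin (m + 1) → ℝ)))) ?_
    have key2 : ∀ a b : κ.ord.ToType, x a ∉ A' → x b ∉ A' → b < a → z a ≠ z b := by
      intro a b ha _ hlt hab
      refine hA'2 a ha 1 one_ne_zero (-z b) (Submodule.neg_mem _
        (Submodule.subset_span ⟨b, hlt, rfl⟩)) ?_
      rw [one_smul, hab, add_neg_cancel]
      exact mem_singleton _
    intro a b hab
    have hab' : z a.1 = z b.1 := congrArg Subtype.val hab
    by_contra hne
    have hne' : a.1 ≠ b.1 := fun h => hne (Subtype.ext h)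
    rcases lt_or_gt_of_ne hne' with h | h
    · exact key2 b.1 a.1 b.2 a.2 h hab'.symm
    · exact key2 a.1 b.1 a.2 b.2 h hab'
  · intro A hA
    obtain ⟨A', hA'1, hA'2⟩ := hstar A hA
    have h1 := hbad A' hA'1
    have hsub : ((Submodule.span ℚ (range z) : Set (Fin (m + 1) → ℝ)) ∩ A) ⊆
        {0} ∪ ⋃ β ∈ {β | x β ∈ A'}, (Submodule.span ℚ (z '' Iic β) : Set (Fin (m + 1) → ℝ)) := by
      rintro g ⟨hg1, hg2⟩
      by_cases hg0 : g = 0
      · left
        exact hg0
      · right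
        obtain ⟨β, c, hc, h, hh, rfl⟩ := decomp z g hg1 hg0
        simp only [mem_iUnion]
        refine ⟨β, ?_, ?_⟩
        · by_contra hcon
          exact hA'2 β hcon c hc h hh hg2
        · apply Submodule.add_mem
          · exact Submodule.smul_mem _ _ (Submodule.subset_span ⟨β, mem_Iic.2 le_rfl, rfl⟩)
          · exact Submodule.span_mono (image_mono Iio_subset_Iic_self) hh
    refine lt_of_le_of_lt (mk_le_mk_of_subset hsub) (lt_of_le_of_lt (mk_union_le _ _) ?_)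
    refine add_lt_of_lt hκ.le (lt_of_le_of_lt (by simp) hκ) ?_
    rw [card_biUnion_lt_iff_forall_of_isRegular hreg h1]
    intro β _
    apply mk_span_lt hκ
    refine lt_of_le_of_lt mk_image_le ?_
    rw [← Iio_insert]
    refine lt_of_le_of_lt (mk_insert_le) ?_
    exact add_lt_of_lt hκ.le (hIio β) (lt_of_lt_of_le one_lt_aleph0 hκ.le)

end

end TH724.Luz
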