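import Pool.Agent.TH724.Luz.Dec

/-!
A sequence `y` of natural numbers codes finite sets of points with radii. Given in addition a
sequence `q` of translations we find a point `z` such that `z + w` avoids a closed set `F`
whenever some stage `j` is good for `F` and `q j` is close to `w`.
-/

set_option autoImplicit false

namespace TH724.Luz

open Set Classical Metric Filter

variable {X : Type*} [NormedAddCommGroup X] [ProperSpace X]

/-- the point number `i` of a dense sequence -/
noncomputable def pt (X : Type*) [NormedAddCommGroup X] [ProperSpace X] (i : ℕ) : X :=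
  TopologicalSpace.denseSeq X i

theorem exists_pt (x : X) (ε : ℝ) (hε : 0 < ε) : ∃ i, dist (pt X i) x < ε := by
  obtain ⟨y, hy, i, rfl⟩ := Metric.dense_iff.1 (TopologicalSpace.denseRange_denseSeq X) x ε hε
  exact ⟨i, hy⟩

theorem exists_pt_open (U : Set X) (hU : IsOpen U) (hne : U.Nonempty) : ∃ i, pt X i ∈ U := by
  obtain ⟨y, hy, i, rfl⟩ := (TopologicalSpace.denseRange_denseSeq X).inter_open_nonempty U hU hne
  exact ⟨i, hy⟩

/-- decoding -/
def dec (c : ℕ) : List ℕ × ℕ := Denumerable.ofNat (List ℕ × ℕ) c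

theorem dec_surj (d : List ℕ × ℕ) : ∃ c, dec c = d := ⟨Encodable.encode d, Denumerable.ofNat_encode d⟩

/-- safe radius -/
noncomputable def rr (c : ℕ) : ℝ := 1 / ((dec c).2 + 1)

theorem rr_pos (c : ℕ) : 0 < rr c := by
  unfold rr
  positivity

/-- the radii of the balls -/
noncomputable def rho (y : ℕ → ℕ) : ℕ → ℝ
  | 0 => 1
  | j + 1 => min (rho y j / 4) (rr (y j) / 2)

theorem rho_pos (y : ℕ → ℕ) (j : ℕ) : 0 < rho y j := by
  induction j with
  | zero => exact one_pos
  | succ j ih =>
    rw [rho]
    exact lt_min (by positivity) (by have := rr_pos (y j); positivity)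

theorem rho_le (y : ℕ → ℕ) (j : ℕ) : rho y (j + 1) ≤ rho y j / 4 := min_le_left _ _

theorem rho_le_rr (y : ℕ → ℕ) (j : ℕ) : rho y (j + 1) ≤ rr (y j) / 2 := min_le_right _ _

theorem rho_anti (y : ℕ → ℕ) {i j : ℕ} (h : i ≤ j) : rho y j ≤ rho y i := by
  induction j with
  | zero => rw [Nat.le_zero.1 h]
  | succ j ih =>
    rcases Nat.lt_or_ge i (j + 1) with h1 | h1
    · have := rho_le y j
      have := rho_pos y j
      have := ih (by omega)
      linarith
    · rw [show i = j + 1 by omega]

theorem rho_congr {y y' : ℕ → ℕ} {j : ℕ} (h : ∀ k < j, y k = y' k) : rho y j = rho y' j := by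
  induction j with
  | zero => rfl
  | succ j ih =>
    rw [rho, rho, ih (fun k hk => h k (by omega)), h j (by omega)]

theorem rho_tendsto (y : ℕ → ℕ) (j : ℕ) : rho y j ≤ (1 / 4) ^ j := by
  induction j with
  | zero => simp [rho]
  | succ j ih =>
    have := rho_le y j
    rw [pow_succ]
    linarith

/-- stage `j` of `y` is good for `F` -/
def good (F : Set X) (y : ℕ → ℕ) (j : ℕ) : Prop :=
  (∀ a ∈ (dec (y j)).1, Disjoint (closedBall (pt X a) (rr (y j))) F) ∧
    ∀ p ∈ closedBall (0 : X) j, ∃ a ∈ (dec (y j)).1, dist (pt X a) p ≤ rho y j / 2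

theorem good_loc (F : Set X) (y y' : ℕ → ℕ) (j : ℕ) (h : ∀ k ≤ j, y k = y' k)
    (hg : good F y j) : good F y' j := by
  unfold good at hg ⊢
  rw [← h j le_rfl, ← rho_congr (fun k hk => h k hk.le)]
  exact hg

theorem good_ext (F : Set X) (hF : IsClosed F) (hn : IsNowhereDense F) (y : ℕ → ℕ) (j : ℕ) :
    ∃ v, good F (Function.update y j v) j := by
  have hρ := rho_pos y j
  have hint : interior F = ∅ := by
    rw [← hF.closure_eq]
    exact hn
  -- a safe point close to every point
  have hsafe : ∀ p : X, ∃ a, dist (pt X a) p < rho y j / 4 ∧ pt X a ∉ F := by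
    intro p
    have h1 : (ball p (rho y j / 4) ∩ Fᶜ).Nonempty := by
      by_contra hcon
      rw [not_nonempty_iff_eq_empty] at hcon
      have h2 : ball p (rho y j / 4) ⊆ F := by
        intro x hx
        by_contra hxF
        have : x ∈ (∅ : Set X) := hcon ▸ ⟨hx, hxF⟩
        exact this
      have h3 : p ∈ interior F :=
        interior_maximal h2 isOpen_ball (mem_ball_self (by positivity))
      rw [hint] at h3
      exact h3
    obtain ⟨a, ha⟩ := exists_pt_open _ (isOpen_ball.inter hF.isOpen_compl) h1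
    exact ⟨a, ha.1, ha.2⟩
  choose f hf1 hf2 using hsafe
  obtain ⟨t, -, ht⟩ := (isCompact_closedBall (0 : X) (j : ℝ)).elim_nhds_subcover
    (fun p => ball p (rho y j / 4)) (fun p _ => ball_mem_nhds p (by positivity))
  -- a common radius
  have hrad : ∀ l : List ℕ, (∀ a ∈ l, pt X a ∉ F) →
      ∃ N : ℕ, ∀ a ∈ l, Disjoint (closedBall (pt X a) (1 / ((N : ℝ) + 1))) F := by
    intro l
    induction l with
    | nil => intro _; exact ⟨0, by simp⟩
    | cons a l ih =>
      intro hl
      obtain ⟨N, hN⟩ := ih (fun b hb => hl b (List.mem_cons_of_mem _ hb))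
      have ha := hl a List.mem_cons_self
      obtain ⟨ε, hε, hball⟩ := Metric.isOpen_iff.1 hF.isOpen_compl _ ha
      obtain ⟨N', hN'⟩ := exists_nat_one_div_lt hε
      refine ⟨max N N', fun b hb => ?_⟩
      rw [List.mem_cons] at hb
      rcases hb with rfl | hb
      · rw [disjoint_left]
        intro x hx hxF
        refine hball (?_ : x ∈ ball (pt X b) ε) hxF
        refine mem_ball.2 (lt_of_le_of_lt (mem_closedBall.1 hx) (lt_of_le_of_lt ?_ hN'))
        apply one_div_le_one_div_of_le (by positivity)
        push_cast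
        linarith [le_max_right (N : ℝ) (N' : ℝ)]
      · refine (hN b hb).mono_left (closedBall_subset_closedBall ?_)
        apply one_div_le_one_div_of_le (by positivity)
        push_cast
        linarith [le_max_left (N : ℝ) (N' : ℝ)]
  obtain ⟨N, hN⟩ := hrad (t.toList.map f) (by
    intro a ha
    rw [List.mem_map] at ha
    obtain ⟨p, -, rfl⟩ := ha
    exact hf2 p)
  obtain ⟨v, hv⟩ := dec_surj (t.toList.map f, N)
  refine ⟨v, ?_, ?_⟩
  · intro a ha
    rw [Function.update_self, hv] at ha
    rw [Function.update_self, rr, hv]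
    exact hN a ha
  · intro p hp
    rw [Function.update_self, hv,
      rho_congr (y' := y) (fun k hk => by rw [Function.update_of_ne (by omega)])]
    have h1 := ht hp
    rw [mem_iUnion₂] at h1
    obtain ⟨p', hp't, hp'⟩ := h1
    refine ⟨f p', List.mem_map.2 ⟨p', Finset.mem_toList.2 hp't, rfl⟩, ?_⟩
    have h2 := hf1 p'
    have h3 := dist_triangle (pt X (f p')) p' p
    have h4 : dist p' p < rho y j / 4 := by
      rw [dist_comm]
      exact hp'
    linarith

/-- the centres of the balls -/
noncomputable def cen (y : ℕ → ℕ) (q : ℕ → X) : ℕ → X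
  | 0 => 0
  | j + 1 =>
    if h : ∃ a ∈ (dec (y j)).1, dist (pt X a) (cen y q j + q j) ≤ rho y j / 2 then
      pt X h.choose - q j
    else cen y q j

theorem dist_cen (y : ℕ → ℕ) (q : ℕ → X) (j : ℕ) :
    dist (cen y q (j + 1)) (cen y q j) ≤ rho y j / 2 := by
  rw [cen]
  split_ifs with h
  · have h1 := h.choose_spec.2
    have h2 : dist (pt X h.choose - q j) (cen y q j) = dist (pt X h.choose) (cen y q j + q j) := by
      rw [dist_eq_norm, dist_eq_norm]
      congr 1
      abel
    rw [h2]
    exact h1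
  · rw [dist_self]
    have := rho_pos y j
    positivity

theorem dist_cen_add (y : ℕ → ℕ) (q : ℕ → X) (j k : ℕ) :
    dist (cen y q (j + k)) (cen y q j) + rho y (j + k) ≤ rho y j := by
  induction k with
  | zero => simp
  | succ k ih =>
    have h1 := dist_cen y q (j + k)
    have h2 := rho_le y (j + k)
    have h3 := dist_triangle (cen y q (j + k + 1)) (cen y q (j + k)) (cen y q j)
    have h4 := rho_pos y (j + k)
    rw [← Nat.add_assoc]
    linarith

theorem exists_limit (y : ℕ → ℕ) (q : ℕ → X) :
    ∃ z : X, ∀ j, dist z (cen y q j) ≤ rho y j := by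
  have hc : CauchySeq (cen y q) := by
    refine cauchySeq_of_le_geometric (1 / 4) 1 (by norm_num) (fun j => ?_)
    rw [dist_comm]
    have h1 := dist_cen y q j
    have h2 := rho_tendsto y j
    have h3 := rho_pos y j
    linarith
  obtain ⟨z, hz⟩ := cauchySeq_tendsto_of_complete hc
  refine ⟨z, fun j => ?_⟩
  have h1 : Tendsto (fun n => dist (cen y q n) (cen y q j)) atTop (nhds (dist z (cen y q j))) :=
    hz.dist tendsto_const_nhds
  refine le_of_tendsto h1 ?_
  filter_upwards [eventually_ge_atTop j] with n hn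
  obtain ⟨k, rfl⟩ := Nat.exists_eq_add_of_le hn
  have h2 := dist_cen_add y q j k
  have h3 := rho_pos y (j + k)
  linarith

theorem avoid (F : Set X) (y : ℕ → ℕ) (q : ℕ → X) (z w : X) (hz : ∀ j, dist z (cen y q j) ≤ rho y j)
    (j : ℕ) (hg : good F y j) (hq : dist w (q j) ≤ rr (y j) / 2) (hj : ‖z‖ + ‖w‖ + 2 ≤ j)
    (hr : rr (y j) / 2 ≤ 1) : z + w ∉ F := by
  have hρ1 : rho y j ≤ 1 := (rho_anti y (Nat.zero_le j)).trans_eq rfl
  have hmem : cen y q j + q j ∈ closedBall (0 : X) j := by
    rw [mem_closedBall, dist_zero_right]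
    have h1 : ‖cen y q j‖ ≤ ‖z‖ + 1 := by
      have h2 := hz j
      rw [dist_comm, dist_eq_norm] at h2
      have h3 := norm_le_norm_add_norm_sub' (cen y q j) z
      linarith
    have h4 : ‖q j‖ ≤ ‖w‖ + 1 := by
      rw [dist_comm, dist_eq_norm] at hq
      have h3 := norm_le_norm_add_norm_sub' (q j) w
      linarith
    have := norm_add_le (cen y q j) (q j)
    linarith
  have hex := hg.2 _ hmem
  have h1 : cen y q (j + 1) = pt X hex.choose - q j := by
    rw [cen, dif_pos hex]
  have h2 := hg.1 _ hex.choose_spec.1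
  have h3 := hz (j + 1)
  have h4 := rho_le_rr y j
  intro hmemF
  refine disjoint_left.1 h2 ?_ hmemF
  rw [mem_closedBall]
  have h5 : dist (z + w) (pt X hex.choose) ≤ dist z (cen y q (j + 1)) + dist w (q j) := by
    have h6 : pt X hex.choose = cen y q (j + 1) + q j := by rw [h1]; abel
    rw [h6]
    exact dist_add_add_le _ _ _ _
  linarith

end TH724.Luz
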